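import Mathlib

set_option autoImplicit false

/-!
The emptiness problem for global index grammars is undecidable.
-/

open Turing Relation StateTransition

namespace Pool.Agent.Results.MP_c0e261_lc.EmptinessUndecidable

/-! ### Global index grammars -/

/-- Symbols of sentential forms: `Sum.inl A` is the nonterminal with name `A`, and `Sum.inr a` is
the terminal with name `a`. -/
abbrev Sym : Type := ℕ ⊕ ℕ

/-- What a production does with the global stack. -/
abbrev Act : Type := Unit ⊕ (Option ℕ ⊕ ((ℕ × ℕ) ⊕ ℕ))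

/-- A context-free production, form (i.1). -/
abbrev Act.free : Act := Sum.inl ()

/-- Form (i.2): the production is applicable only if the top stack symbol is `y`, where `none`
stands for the bottom symbol; the stack is unchanged. -/
abbrev Act.test (y : Option ℕ) : Act := Sum.inr (Sum.inl y)

/-- Form (ii): the production pushes `x` and its right-hand side begins with the terminal `a`. -/
abbrev Act.push (x a : ℕ) : Act := Sum.inr (Sum.inr (Sum.inl (x, a)))

/-- Form (iii): the production is applicable only if the top stack symbol is `x`, which it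
pops. -/
abbrev Act.pop (x : ℕ) : Act := Sum.inr (Sum.inr (Sum.inr x))

/-- A production `(A, act, α)` rewrites the nonterminal `A` to `α` (to `a α` if `act` is
`Act.push x a`). -/
abbrev Rule : Type := ℕ × Act × List Sym

/-- A global index grammar: its start symbol and the finite list of its productions. The alphabets
of nonterminals, terminals and stack indices are the finite sets of names that occur in it; the
bottom symbol of the stack is left implicit. -/
abbrev GIG : Type := ℕ × List Rule

/-- One leftmost derivation step. A configuration is `(δ, β)`, where `δ` is the content of the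
stack above the bottom symbol (top on the left) and `β` is the sentential form. -/
inductive Step (G : GIG) : List ℕ × List Sym → List ℕ × List Sym → Prop
  | free {A : ℕ} {α : List Sym} (h : (A, Act.free, α) ∈ G.2) (δ u : List ℕ) (γ : List Sym) :
      Step G (δ, u.map Sum.inr ++ Sum.inl A :: γ) (δ, u.map Sum.inr ++ (α ++ γ))
  | test {A : ℕ} {y : Option ℕ} {α : List Sym} (h : (A, Act.test y, α) ∈ G.2) (δ u : List ℕ)
      (γ : List Sym) (hy : δ.head? = y) :
      Step G (δ, u.map Sum.inr ++ Sum.inl A :: γ) (δ, u.map Sum.inr ++ (α ++ γ))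
  | push {A x a : ℕ} {α : List Sym} (h : (A, Act.push x a, α) ∈ G.2) (δ u : List ℕ)
      (γ : List Sym) :
      Step G (δ, u.map Sum.inr ++ Sum.inl A :: γ)
        (x :: δ, u.map Sum.inr ++ (Sum.inr a :: (α ++ γ)))
  | pop {A x : ℕ} {α : List Sym} (h : (A, Act.pop x, α) ∈ G.2) (δ u : List ℕ)
      (γ : List Sym) :
      Step G (x :: δ, u.map Sum.inr ++ Sum.inl A :: γ) (δ, u.map Sum.inr ++ (α ++ γ))

/-- The language generated by a global index grammar: the terminal words derivable from the start
symbol and the empty stack with a derivation that ends with the empty stack. -/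
def language (G : GIG) : Set (List ℕ) :=
  {w | ReflTransGen (Step G) ([], [Sum.inl G.1]) ([], w.map Sum.inr)}

/-! ### Forgetting the terminals -/

/-- The nonterminals of a sentential form. -/
def nts (β : List Sym) : List ℕ := β.filterMap Sum.getLeft?

@[simp] theorem nts_nil : nts [] = [] := rfl
@[simp] theorem nts_inl (A : ℕ) (β : List Sym) : nts (Sum.inl A :: β) = A :: nts β := rfl
@[simp] theorem nts_inr (a : ℕ) (β : List Sym) : nts (Sum.inr a :: β) = nts β := rfl
@[simp] theorem nts_append (β γ : List Sym) : nts (β ++ γ) = nts β ++ nts γ := by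
  simp [nts]
@[simp] theorem nts_map_inr (u : List ℕ) : nts (u.map Sum.inr) = [] := by
  induction u with
  | nil => rfl
  | cons a u ih => simpa using ih
@[simp] theorem nts_map_inl (u : List ℕ) : nts (u.map Sum.inl) = u := by
  induction u with
  | nil => rfl
  | cons a u ih => simpa using ih

theorem eq_map_of_nts_nil : ∀ {β : List Sym}, nts β = [] → ∃ w : List ℕ, β = w.map Sum.inr
  | [], _ => ⟨[], rfl⟩
  | Sum.inl A :: β, h => by simp at h
  | Sum.inr a :: β, h => by
    obtain ⟨w, rfl⟩ := eq_map_of_nts_nil (β := β) (by simpa using h)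
    exact ⟨a :: w, rfl⟩

theorem decomp_of_nts_cons : ∀ {β : List Sym} {A : ℕ} {γ : List ℕ}, nts β = A :: γ →
    ∃ (u : List ℕ) (β' : List Sym), β = u.map Sum.inr ++ Sum.inl A :: β' ∧ nts β' = γ
  | [], A, γ, h => by simp at h
  | Sum.inl B :: β, A, γ, h => by
    simp only [nts_inl, List.cons.injEq] at h
    obtain ⟨rfl, h⟩ := h
    exact ⟨[], β, rfl, h⟩
  | Sum.inr a :: β, A, γ, h => by
    obtain ⟨u, β', rfl, h'⟩ := decomp_of_nts_cons (β := β) (by simpa using h)
    exact ⟨a :: u, β', rfl, h'⟩

/-- Derivation steps without terminals: the stack and the list of nonterminals. -/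
inductive CStep (R : List Rule) : List ℕ × List ℕ → List ℕ × List ℕ → Prop
  | free {A : ℕ} {α : List Sym} (h : (A, Act.free, α) ∈ R) (δ γ : List ℕ) :
      CStep R (δ, A :: γ) (δ, nts α ++ γ)
  | test {A : ℕ} {y : Option ℕ} {α : List Sym} (h : (A, Act.test y, α) ∈ R) (δ γ : List ℕ)
      (hy : δ.head? = y) : CStep R (δ, A :: γ) (δ, nts α ++ γ)
  | push {A x a : ℕ} {α : List Sym} (h : (A, Act.push x a, α) ∈ R) (δ γ : List ℕ) :
      CStep R (δ, A :: γ) (x :: δ, nts α ++ γ)
  | pop {A x : ℕ} {α : List Sym} (h : (A, Act.pop x, α) ∈ R) (δ γ : List ℕ) :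
      CStep R (x :: δ, A :: γ) (δ, nts α ++ γ)

/-- Forget the terminals of a configuration. -/
def core (c : List ℕ × List Sym) : List ℕ × List ℕ := (c.1, nts c.2)

theorem core_step {G : GIG} {c c' : List ℕ × List Sym} (h : Step G c c') :
    CStep G.2 (core c) (core c') := by
  cases h with
  | free h δ u γ => simpa [core] using CStep.free h δ (nts γ)
  | test h δ u γ hy => simpa [core] using CStep.test h δ (nts γ) hy
  | push h δ u γ => simpa [core] using CStep.push h δ (nts γ)
  | pop h δ u γ => simpa [core] using CStep.pop h _ (nts γ)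

theorem lift_step {G : GIG} {c : List ℕ × List Sym} {d : List ℕ × List ℕ}
    (h : CStep G.2 (core c) d) : ∃ c', Step G c c' ∧ core c' = d := by
  obtain ⟨δ, β⟩ := c
  generalize hc : core (δ, β) = e at h
  cases h with
  | free h δ' γ =>
    simp only [core, Prod.mk.injEq] at hc
    obtain ⟨rfl, hc⟩ := hc
    obtain ⟨u, β', rfl, h'⟩ := decomp_of_nts_cons hc
    exact ⟨_, Step.free h _ u β', by simp [core, h']⟩
  | test h δ' γ hy =>
    simp only [core, Prod.mk.injEq] at hc
    obtain ⟨rfl, hc⟩ := hc
    obtain ⟨u, β', rfl, h'⟩ := decomp_of_nts_cons hc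
    exact ⟨_, Step.test h _ u β' hy, by simp [core, h']⟩
  | push h δ' γ =>
    simp only [core, Prod.mk.injEq] at hc
    obtain ⟨rfl, hc⟩ := hc
    obtain ⟨u, β', rfl, h'⟩ := decomp_of_nts_cons hc
    exact ⟨_, Step.push h _ u β', by simp [core, h']⟩
  | pop h δ' γ =>
    simp only [core, Prod.mk.injEq] at hc
    obtain ⟨rfl, hc⟩ := hc
    obtain ⟨u, β', rfl, h'⟩ := decomp_of_nts_cons hc
    exact ⟨_, Step.pop h _ u β', by simp [core, h']⟩

theorem core_reach {G : GIG} {c c' : List ℕ × List Sym} (h : ReflTransGen (Step G) c c') :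
    ReflTransGen (CStep G.2) (core c) (core c') := by
  induction h with
  | refl => exact .refl
  | tail _ h ih => exact ih.tail (core_step h)

theorem lift_reach {G : GIG} {c : List ℕ × List Sym} {d : List ℕ × List ℕ}
    (h : ReflTransGen (CStep G.2) (core c) d) :
    ∃ c', ReflTransGen (Step G) c c' ∧ core c' = d := by
  induction h with
  | refl => exact ⟨c, .refl, rfl⟩
  | tail _ h ih =>
    obtain ⟨c', hc', rfl⟩ := ih
    obtain ⟨c'', h1, h2⟩ := lift_step h
    exact ⟨c'', hc'.tail h1, h2⟩

theorem language_nonempty_iff (G : GIG) :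
    (language G).Nonempty ↔ ReflTransGen (CStep G.2) ([], [G.1]) ([], []) := by
  constructor
  · rintro ⟨w, hw⟩
    simpa [core] using core_reach hw
  · intro h
    have h' : ReflTransGen (CStep G.2) (core ([], [Sum.inl G.1])) ([], []) := by
      simpa [core] using h
    obtain ⟨⟨δ, β⟩, h1, h2⟩ := lift_reach h'
    simp only [core, Prod.mk.injEq] at h2
    obtain ⟨rfl, h2⟩ := h2
    obtain ⟨w, rfl⟩ := eq_map_of_nts_nil h2
    exact ⟨w, h1⟩

/-! ### Simulation of a Turing machine -/

section Simulation

/-- The nonterminals of the simulating grammar. -/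
inductive NT (Γ Λ : Type) : Type
  | start : NT Γ Λ
  | ctl : Λ → Γ → NT Γ Λ
  | cell : Γ → NT Γ Λ
  | bot : NT Γ Λ
  | carry : Λ → NT Γ Λ
  | load : Γ → NT Γ Λ
  | erase : NT Γ Λ

/-- The stack indices of the simulating grammar. -/
inductive IX (Γ Λ : Type) : Type
  | sym : Γ → IX Γ Λ
  | mark : Λ → IX Γ Λ

/-- Stack actions of the simulating grammar. -/
inductive TAct (Γ Λ : Type) : Type
  | free : TAct Γ Λ
  | test : Option (IX Γ Λ) → TAct Γ Λ
  | push : IX Γ Λ → TAct Γ Λ
  | pop : IX Γ Λ → TAct Γ Λ

instance NT.finite (Γ Λ : Type) [Finite Γ] [Finite Λ] : Finite (NT Γ Λ) := by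
  let f : Fin 3 ⊕ ((Λ × Γ) ⊕ (Γ ⊕ (Λ ⊕ Γ))) → NT Γ Λ
    | Sum.inl 0 => NT.start
    | Sum.inl 1 => NT.bot
    | Sum.inl 2 => NT.erase
    | Sum.inr (Sum.inl (q, a)) => NT.ctl q a
    | Sum.inr (Sum.inr (Sum.inl a)) => NT.cell a
    | Sum.inr (Sum.inr (Sum.inr (Sum.inl q))) => NT.carry q
    | Sum.inr (Sum.inr (Sum.inr (Sum.inr a))) => NT.load a
  refine Finite.of_surjective f ?_
  rintro (_ | ⟨q, a⟩ | a | _ | q | a | _)
  · exact ⟨Sum.inl 0, rfl⟩
  · exact ⟨Sum.inr (Sum.inl (q, a)), rfl⟩
  · exact ⟨Sum.inr (Sum.inr (Sum.inl a)), rfl⟩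
  · exact ⟨Sum.inl 1, rfl⟩
  · exact ⟨Sum.inr (Sum.inr (Sum.inr (Sum.inl q))), rfl⟩
  · exact ⟨Sum.inr (Sum.inr (Sum.inr (Sum.inr a))), rfl⟩
  · exact ⟨Sum.inl 2, rfl⟩

instance IX.finite (Γ Λ : Type) [Finite Γ] [Finite Λ] : Finite (IX Γ Λ) := by
  let f : Γ ⊕ Λ → IX Γ Λ
    | Sum.inl a => IX.sym a
    | Sum.inr q => IX.mark q
  refine Finite.of_surjective f ?_
  rintro (a | q)
  · exact ⟨Sum.inl a, rfl⟩
  · exact ⟨Sum.inr q, rfl⟩

instance TAct.finite (Γ Λ : Type) [Finite Γ] [Finite Λ] : Finite (TAct Γ Λ) := by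
  let f : Unit ⊕ (Option (IX Γ Λ) ⊕ (IX Γ Λ ⊕ IX Γ Λ)) → TAct Γ Λ
    | Sum.inl _ => TAct.free
    | Sum.inr (Sum.inl y) => TAct.test y
    | Sum.inr (Sum.inr (Sum.inl x)) => TAct.push x
    | Sum.inr (Sum.inr (Sum.inr x)) => TAct.pop x
  refine Finite.of_surjective f ?_
  rintro (_ | y | x | x)
  · exact ⟨Sum.inl (), rfl⟩
  · exact ⟨Sum.inr (Sum.inl y), rfl⟩
  · exact ⟨Sum.inr (Sum.inr (Sum.inl x)), rfl⟩
  · exact ⟨Sum.inr (Sum.inr (Sum.inr x)), rfl⟩

variable {Γ Λ : Type} [Inhabited Γ] [Inhabited Λ] (M : TM0.Machine Γ Λ)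

/-- The productions of the simulating grammar, except the one for the start symbol. -/
inductive BRule : NT Γ Λ → TAct Γ Λ → List (NT Γ Λ) → Prop
  | halt {q : Λ} {a : Γ} (h : M q a = none) : BRule (.ctl q a) .free [.erase]
  | write {q : Λ} {a : Γ} {q' : Λ} {b : Γ} (h : M q a = some (q', .write b)) :
      BRule (.ctl q a) .free [.ctl q' b]
  | right {q : Λ} {a : Γ} {q' : Λ} (b : Γ) (h : M q a = some (q', .move .right)) :
      BRule (.ctl q a) (.pop (.sym b)) [.ctl q' b, .cell a]
  | right0 {q : Λ} {a : Γ} {q' : Λ} (h : M q a = some (q', .move .right)) :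
      BRule (.ctl q a) (.test none) [.ctl q' default, .cell a]
  | left {q : Λ} {a : Γ} {q' : Λ} (h : M q a = some (q', .move .left)) :
      BRule (.ctl q a) (.push (.sym a)) [.carry q']
  | carry (q : Λ) : BRule (.carry q) (.push (.mark q)) []
  | cell (q : Λ) (b : Γ) : BRule (.cell b) (.pop (.mark q)) [.ctl q b]
  | bot (q : Λ) : BRule .bot (.pop (.mark q)) [.ctl q default, .bot]
  | load (b : Γ) : BRule (.load b) (.push (.sym b)) []
  | erasePop (b : Γ) : BRule .erase (.pop (.sym b)) [.erase]
  | erase0 : BRule .erase (.test none) []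
  | cell0 (b : Γ) : BRule (.cell b) (.test none) []
  | bot0 : BRule .bot (.test none) []

/-- The productions of the simulating grammar. -/
def TRule (init : List (NT Γ Λ)) (A : NT Γ Λ) (act : TAct Γ Λ) (α : List (NT Γ Λ)) : Prop :=
  (A = .start ∧ act = .free ∧ α = init) ∨ BRule M A act α

/-- The derivation steps of the simulating grammar. -/
inductive TStep (init : List (NT Γ Λ)) :
    List (IX Γ Λ) × List (NT Γ Λ) → List (IX Γ Λ) × List (NT Γ Λ) → Prop
  | free {A : NT Γ Λ} {α : List (NT Γ Λ)} (h : TRule M init A .free α) (δ : List (IX Γ Λ))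
      (γ : List (NT Γ Λ)) : TStep init (δ, A :: γ) (δ, α ++ γ)
  | test {A : NT Γ Λ} {y : Option (IX Γ Λ)} {α : List (NT Γ Λ)} (h : TRule M init A (.test y) α)
      (δ : List (IX Γ Λ)) (γ : List (NT Γ Λ)) (hy : δ.head? = y) :
      TStep init (δ, A :: γ) (δ, α ++ γ)
  | push {A : NT Γ Λ} {x : IX Γ Λ} {α : List (NT Γ Λ)} (h : TRule M init A (.push x) α)
      (δ : List (IX Γ Λ)) (γ : List (NT Γ Λ)) : TStep init (δ, A :: γ) (x :: δ, α ++ γ)
  | pop {A : NT Γ Λ} {x : IX Γ Λ} {α : List (NT Γ Λ)} (h : TRule M init A (.pop x) α)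
      (δ : List (IX Γ Λ)) (γ : List (NT Γ Λ)) : TStep init (x :: δ, A :: γ) (δ, α ++ γ)

/-- The deterministic part of the derivation steps. -/
def next (init : List (NT Γ Λ)) :
    List (IX Γ Λ) × List (NT Γ Λ) → Option (List (IX Γ Λ) × List (NT Γ Λ))
  | (δ, .start :: γ) => some (δ, init ++ γ)
  | (δ, .load b :: γ) => some (.sym b :: δ, γ)
  | (δ, .carry q :: γ) => some (.mark q :: δ, γ)
  | (.mark q :: δ, .cell b :: γ) => some (δ, .ctl q b :: γ)
  | (.mark q :: δ, .bot :: γ) => some (δ, .ctl q default :: .bot :: γ)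
  | (δ, .ctl q a :: γ) =>
    match M q a, δ with
    | none, _ => none
    | some (q', .write b), δ => some (δ, .ctl q' b :: γ)
    | some (q', .move .left), δ => some (.sym a :: δ, .carry q' :: γ)
    | some (q', .move .right), [] => some ([], .ctl q' default :: .cell a :: γ)
    | some (q', .move .right), .sym b :: δ => some (δ, .ctl q' b :: .cell a :: γ)
    | some (_, .move .right), .mark _ :: _ => none
  | _ => none

theorem step_of_next {init : List (NT Γ Λ)} {x y : List (IX Γ Λ) × List (NT Γ Λ)}
    (h : next M init x = some y) : TStep M init x y := by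
  obtain ⟨δ, γ⟩ := x
  rcases γ with _ | ⟨_ | ⟨q, a⟩ | a | _ | q | a | _, γ⟩
  · simp [next] at h
  · simp only [next, Option.some.injEq] at h
    subst h
    exact TStep.free (Or.inl ⟨rfl, rfl, rfl⟩) δ γ
  · simp only [next] at h
    rcases hM : M q a with _ | ⟨q', (_ | _) | b⟩
    · simp [hM] at h
    · simp only [hM, Option.some.injEq] at h
      subst h
      exact TStep.push (α := [.carry q']) (Or.inr (.left hM)) δ γ
    · rcases δ with _ | ⟨b | q'', δ⟩
      · simp only [hM, Option.some.injEq] at h
        subst h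
        exact TStep.test (α := [.ctl q' default, .cell a]) (Or.inr (.right0 hM)) [] γ rfl
      · simp only [hM, Option.some.injEq] at h
        subst h
        exact TStep.pop (α := [.ctl q' b, .cell a]) (Or.inr (.right b hM)) δ γ
      · simp [hM] at h
    · simp only [hM, Option.some.injEq] at h
      subst h
      exact TStep.free (α := [.ctl q' b]) (Or.inr (.write hM)) δ γ
  · rcases δ with _ | ⟨b | q'', δ⟩
    · simp [next] at h
    · simp [next] at h
    · simp only [next, Option.some.injEq] at h
      subst h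
      exact TStep.pop (α := [.ctl q'' a]) (Or.inr (.cell q'' a)) δ γ
  · rcases δ with _ | ⟨b | q'', δ⟩
    · simp [next] at h
    · simp [next] at h
    · simp only [next, Option.some.injEq] at h
      subst h
      exact TStep.pop (α := [.ctl q'' default, .bot]) (Or.inr (.bot q'')) δ γ
  · simp only [next, Option.some.injEq] at h
    subst h
    exact TStep.push (α := []) (Or.inr (.carry q)) δ γ
  · simp only [next, Option.some.injEq] at h
    subst h
    exact TStep.push (α := []) (Or.inr (.load a)) δ γ
  · simp [next] at h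

theorem next_unique {init : List (NT Γ Λ)} {x y z : List (IX Γ Λ) × List (NT Γ Λ)}
    (h : next M init x = some z) (hy : TStep M init x y) : y = z := by
  cases hy with
  | free h' δ γ =>
    rcases h' with ⟨rfl, -, rfl⟩ | h'
    · simpa [next] using h
    · cases h' with
      | halt h' => simp [next, h'] at h
      | write h' => simpa [next, h'] using h
  | test h' δ γ hy =>
    rcases h' with ⟨-, h', -⟩ | h'
    · simp at h'
    · cases h' with
      | right0 h' =>
        obtain rfl := List.head?_eq_none_iff.1 hy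
        simpa [next, h'] using h
      | erase0 => simp [next] at h
      | cell0 b =>
        obtain rfl := List.head?_eq_none_iff.1 hy
        simp [next] at h
      | bot0 =>
        obtain rfl := List.head?_eq_none_iff.1 hy
        simp [next] at h
  | push h' δ γ =>
    rcases h' with ⟨-, h', -⟩ | h'
    · simp at h'
    · cases h' with
      | left h' => simpa [next, h'] using h
      | carry q => simpa [next] using h
      | load b => simpa [next] using h
  | pop h' δ γ =>
    rcases h' with ⟨-, h', -⟩ | h'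
    · simp at h'
    · cases h' with
      | right b h' => simpa [next, h'] using h
      | cell q b => simpa [next] using h
      | bot q => simpa [next] using h
      | erasePop b => simp [next] at h

/-- If the final configuration is derivable then the deterministic part terminates. -/
theorem dom_of_reach {init : List (NT Γ Λ)} {x : List (IX Γ Λ) × List (NT Γ Λ)}
    (h : ReflTransGen (TStep M init) x ([], [])) :
    (StateTransition.eval (next M init) x).Dom := by
  induction h using ReflTransGen.head_induction_on with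
  | refl =>
    refine Part.dom_iff_mem.2 ⟨([], []), mem_eval.2 ⟨.refl, ?_⟩⟩
    simp [next]
  | @head x y hxy _ ih =>
    rcases hn : next M init x with _ | z
    · exact Part.dom_iff_mem.2 ⟨x, mem_eval.2 ⟨.refl, hn⟩⟩
    · obtain rfl := next_unique M hn hxy
      rwa [reaches_eval (ReflTransGen.single (by simpa using hn))]

/-- Configurations of the grammar that represent a configuration of the machine. -/
def Rep (c : TM0.Cfg Γ Λ) (x : List (IX Γ Λ) × List (NT Γ Λ)) : Prop :=
  ∃ l r : List Γ, c.Tape.left = ListBlank.mk l ∧ c.Tape.right = ListBlank.mk r ∧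
    x = (r.map .sym, .ctl c.q c.Tape.head :: (l.map .cell ++ [.bot]))

theorem respects (init : List (NT Γ Λ)) : Respects (TM0.step M) (next M init) Rep := by
  rintro ⟨q, ⟨a, L, R⟩⟩ x ⟨l, r, hl, hr, rfl⟩
  simp only at hl hr
  subst hl hr
  rcases hM : M q a with _ | ⟨q', (_ | _) | b⟩
  · have : TM0.step M ⟨q, ⟨a, ListBlank.mk l, ListBlank.mk r⟩⟩ = none := by
      simp [TM0.step, hM]
    rw [this]
    simp [next, hM]
  · have : TM0.step M ⟨q, ⟨a, ListBlank.mk l, ListBlank.mk r⟩⟩ =
        some ⟨q', Tape.move .left ⟨a, ListBlank.mk l, ListBlank.mk r⟩⟩ := by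
      simp [TM0.step, hM]
    rw [this]
    rcases l with _ | ⟨b, l⟩
    · refine ⟨((a :: r).map .sym, .ctl q' default :: (List.map .cell [] ++ [.bot])),
        ⟨[], a :: r, ?_, ?_, ?_⟩, ?_⟩
      · simp only [Tape.move, ListBlank.tail_mk, List.tail_nil]
      · simp only [Tape.move, ListBlank.cons_mk]
      · simp only [Tape.move, ListBlank.head_mk, List.headI_nil]
      · refine TransGen.head (b := (.sym a :: r.map .sym, .carry q' :: ([] ++ [.bot]))) ?_ ?_
        · simp [next, hM]
        refine TransGen.head (b := (.mark q' :: .sym a :: r.map .sym, [.bot])) ?_ ?_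
        · simp [next]
        · exact TransGen.single (by simp [next])
    · refine ⟨((a :: r).map .sym, .ctl q' b :: (List.map .cell l ++ [.bot])),
        ⟨l, a :: r, ?_, ?_, ?_⟩, ?_⟩
      · simp only [Tape.move, ListBlank.tail_mk, List.tail_cons]
      · simp only [Tape.move, ListBlank.cons_mk]
      · simp only [Tape.move, ListBlank.head_mk, List.headI_cons]
      · refine TransGen.head
          (b := (.sym a :: r.map .sym, .carry q' :: ((b :: l).map .cell ++ [.bot]))) ?_ ?_
        · simp [next, hM]
        refine TransGen.head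
          (b := (.mark q' :: .sym a :: r.map .sym, (b :: l).map .cell ++ [.bot])) ?_ ?_
        · simp [next]
        · exact TransGen.single (by simp [next])
  · have : TM0.step M ⟨q, ⟨a, ListBlank.mk l, ListBlank.mk r⟩⟩ =
        some ⟨q', Tape.move .right ⟨a, ListBlank.mk l, ListBlank.mk r⟩⟩ := by
      simp [TM0.step, hM]
    rw [this]
    rcases r with _ | ⟨b, r⟩
    · refine ⟨([], .ctl q' default :: (List.map .cell (a :: l) ++ [.bot])),
        ⟨a :: l, [], ?_, ?_, ?_⟩, ?_⟩
      · simp only [Tape.move, ListBlank.cons_mk]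
      · simp only [Tape.move, ListBlank.tail_mk, List.tail_nil]
      · simp only [Tape.move, ListBlank.head_mk, List.headI_nil, List.map_nil]
      · exact TransGen.single (by simp [next, hM])
    · refine ⟨(r.map .sym, .ctl q' b :: (List.map .cell (a :: l) ++ [.bot])),
        ⟨a :: l, r, ?_, ?_, ?_⟩, ?_⟩
      · simp only [Tape.move, ListBlank.cons_mk]
      · simp only [Tape.move, ListBlank.tail_mk, List.tail_cons]
      · simp only [Tape.move, ListBlank.head_mk, List.headI_cons]
      · exact TransGen.single (by simp [next, hM])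
  · have : TM0.step M ⟨q, ⟨a, ListBlank.mk l, ListBlank.mk r⟩⟩ =
        some ⟨q', ⟨b, ListBlank.mk l, ListBlank.mk r⟩⟩ := by
      simp [TM0.step, hM, Tape.write]
    rw [this]
    exact ⟨(r.map .sym, .ctl q' b :: (l.map .cell ++ [.bot])), ⟨l, r, rfl, rfl, rfl⟩,
      TransGen.single (by simp [next, hM])⟩

theorem next_reach {init : List (NT Γ Λ)} {x y : List (IX Γ Λ) × List (NT Γ Λ)}
    (h : Reaches (next M init) x y) : ReflTransGen (TStep M init) x y := by
  induction h with
  | refl => exact .refl
  | tail _ h ih => exact ih.tail (step_of_next M (by simpa using h))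

theorem reach_of_halt {init : List (NT Γ Λ)} {c : TM0.Cfg Γ Λ}
    {x : List (IX Γ Λ) × List (NT Γ Λ)} (hx : Rep c x) (hn : next M init x = none) :
    ReflTransGen (TStep M init) x ([], []) := by
  obtain ⟨l, r, -, -, rfl⟩ := hx
  have hM : M c.q c.Tape.head = none := by
    rcases hM : M c.q c.Tape.head with _ | ⟨q', (_ | _) | b⟩
    · rfl
    · simp [next, hM] at hn
    · rcases r with _ | ⟨b, r⟩
      · simp [next, hM] at hn
      · simp [next, hM] at hn
    · simp [next, hM] at hn
  refine ReflTransGen.head (TStep.free (α := [.erase]) (Or.inr (.halt hM)) _ _) ?_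
  -- erase the stack
  have h1 : ∀ (r : List Γ) (γ : List (NT Γ Λ)),
      ReflTransGen (TStep M init) (r.map .sym, .erase :: γ) ([], γ) := by
    intro r γ
    induction r with
    | nil => exact ReflTransGen.single (TStep.test (α := []) (Or.inr .erase0) [] γ rfl)
    | cons b r ih =>
      exact ReflTransGen.head
        (TStep.pop (α := [.erase]) (Or.inr (.erasePop b)) (r.map .sym) γ) ih
  refine (h1 r _).trans ?_
  have h2 : ∀ (l : List Γ),
      ReflTransGen (TStep M init) ([], l.map .cell ++ [.bot]) ([], []) := by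
    intro l
    induction l with
    | nil => exact ReflTransGen.single (TStep.test (α := []) (Or.inr .bot0) [] [] rfl)
    | cons b l ih =>
      exact ReflTransGen.head
        (TStep.test (α := []) (Or.inr (.cell0 b)) [] (l.map .cell ++ [.bot]) rfl) ih
  exact h2 l

/-- The right-hand side of the production of the start symbol: it loads the tape content and then
starts the machine. -/
def initForm (a : Γ) (r : List Γ) : List (NT Γ Λ) :=
  r.reverse.map .load ++ [.ctl default a, .bot]

theorem load_reach (init : List (NT Γ Λ)) (r : List Γ) (γ : List (NT Γ Λ)) :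
    Reaches (next M init) ([], r.reverse.map .load ++ γ) (r.map .sym, γ) := by
  suffices h : ∀ (s : List Γ) (δ : List (IX Γ Λ)),
      Reaches (next M init) (δ, s.map .load ++ γ) ((s.reverse.map .sym) ++ δ, γ) by
    simpa using h r.reverse []
  intro s
  induction s with
  | nil => intro δ; exact .refl
  | cons b s ih =>
    intro δ
    refine ReflTransGen.head (b := (.sym b :: δ, s.map .load ++ γ)) (by simp [next]) ?_
    have e : ((b :: s).reverse.map IX.sym) ++ δ = (s.reverse.map IX.sym) ++ (.sym b :: δ) := by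
      simp
    rw [e]
    exact ih (.sym b :: δ)

theorem simulation (a : Γ) (r : List Γ) :
    ReflTransGen (TStep M (initForm a r)) ([], [.start]) ([], []) ↔
      (TM0.eval M (a :: r)).Dom := by
  have hrep : Rep (TM0.init (a :: r) : TM0.Cfg Γ Λ)
      (r.map .sym, [.ctl default a, .bot]) := by
    refine ⟨[], r, ?_, ?_, ?_⟩
    · simp [TM0.init, Tape.mk₁, Tape.mk₂, Tape.mk']
    · simp [TM0.init, Tape.mk₁, Tape.mk₂, Tape.mk']
    · simp [TM0.init, Tape.mk₁, Tape.mk₂, Tape.mk']
  have hstart : Reaches (next M (initForm a r)) ([], [.start])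
      (r.map .sym, [.ctl default a, .bot]) := by
    refine ReflTransGen.head (b := ([], initForm a r)) (by simp [next]) ?_
    exact load_reach M (initForm a r) r [.ctl default a, .bot]
  have hdom : (TM0.eval M (a :: r)).Dom ↔
      (StateTransition.eval (TM0.step M) (TM0.init (a :: r))).Dom := Iff.rfl
  rw [hdom, ← tr_eval_dom (respects M (initForm a r)) hrep]
  constructor
  · intro h
    rw [← reaches_eval hstart]
    exact dom_of_reach M h
  · intro h
    obtain ⟨y, hy⟩ := Part.dom_iff_mem.1 h
    obtain ⟨c, hc, -⟩ := tr_eval_rev (respects M (initForm a r)) hrep hy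
    obtain ⟨h1, h2⟩ := mem_eval.1 hy
    exact (next_reach M (hstart.trans h1)).trans (reach_of_halt M hc h2)

end Simulation

/-! ### Naming the symbols by natural numbers -/

section Coding

variable {Γ Λ : Type} [Inhabited Γ] [Inhabited Λ] (M : TM0.Machine Γ Λ)
variable (eN : NT Γ Λ → ℕ) (eI : IX Γ Λ → ℕ)

/-- The code of a stack action. -/
def codeAct : TAct Γ Λ → Act
  | .free => Act.free
  | .test y => Act.test (y.map eI)
  | .push x => Act.push (eI x) 0
  | .pop x => Act.pop (eI x)

/-- The code of a production. -/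
def codeRule (A : NT Γ Λ) (act : TAct Γ Λ) (α : List (NT Γ Λ)) : Rule :=
  (eN A, codeAct eI act, (α.map eN).map Sum.inl)

/-- The code of a configuration. -/
def codeCfg (x : List (IX Γ Λ) × List (NT Γ Λ)) : List ℕ × List ℕ := (x.1.map eI, x.2.map eN)

variable {M eN eI}

theorem coded_step {init : List (NT Γ Λ)} {R : List Rule}
    (hR : ∀ r, r ∈ R ↔ ∃ A act α, TRule M init A act α ∧ r = codeRule eN eI A act α)
    {x y : List (IX Γ Λ) × List (NT Γ Λ)} (h : TStep M init x y) :
    CStep R (codeCfg eN eI x) (codeCfg eN eI y) := by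
  cases h with
  | free h δ γ =>
    have := CStep.free ((hR _).2 ⟨_, _, _, h, rfl⟩) (δ.map eI) (γ.map eN)
    simpa [codeCfg, -List.map_map] using this
  | test h δ γ hy =>
    have := CStep.test ((hR _).2 ⟨_, _, _, h, rfl⟩) (δ.map eI) (γ.map eN)
      (by rw [← hy, List.head?_map])
    simpa [codeCfg, -List.map_map] using this
  | push h δ γ =>
    have := CStep.push ((hR _).2 ⟨_, _, _, h, rfl⟩) (δ.map eI) (γ.map eN)
    simpa [codeCfg, -List.map_map] using this
  | pop h δ γ =>
    have := CStep.pop ((hR _).2 ⟨_, _, _, h, rfl⟩) (δ.map eI) (γ.map eN)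
    simpa [codeCfg, -List.map_map] using this

theorem typed_step (hN : Function.Injective eN) (hI : Function.Injective eI)
    {init : List (NT Γ Λ)} {R : List Rule}
    (hR : ∀ r, r ∈ R ↔ ∃ A act α, TRule M init A act α ∧ r = codeRule eN eI A act α)
    {x : List (IX Γ Λ) × List (NT Γ Λ)} {z : List ℕ × List ℕ}
    (h : CStep R (codeCfg eN eI x) z) :
    ∃ y, TStep M init x y ∧ z = codeCfg eN eI y := by
  obtain ⟨δ, γ⟩ := x
  generalize hc : codeCfg eN eI (δ, γ) = e at h
  cases h with
  | @free A' α' h δ' γ' =>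
    simp only [codeCfg, Prod.mk.injEq] at hc
    obtain ⟨rfl, hc⟩ := hc
    obtain ⟨B, γ, rfl, hB, rfl⟩ := List.map_eq_cons_iff.1 hc
    obtain ⟨A, act, α, hT, hcode⟩ := (hR _).1 h
    simp only [codeRule, Prod.mk.injEq] at hcode
    obtain ⟨hA, hact, rfl⟩ := hcode
    obtain rfl := hN (hB.trans hA)
    cases act with
    | free => exact ⟨_, TStep.free hT δ γ, by simp [codeCfg, -List.map_map]⟩
    | test y => simp [codeAct] at hact
    | push x => simp [codeAct] at hact
    | pop x => simp [codeAct] at hact
  | @test A' y' α' h δ' γ' hy =>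
    simp only [codeCfg, Prod.mk.injEq] at hc
    obtain ⟨rfl, hc⟩ := hc
    obtain ⟨B, γ, rfl, hB, rfl⟩ := List.map_eq_cons_iff.1 hc
    obtain ⟨A, act, α, hT, hcode⟩ := (hR _).1 h
    simp only [codeRule, Prod.mk.injEq] at hcode
    obtain ⟨hA, hact, rfl⟩ := hcode
    obtain rfl := hN (hB.trans hA)
    cases act with
    | free => simp [codeAct] at hact
    | test y =>
      simp only [codeAct, Act.test, Sum.inr.injEq, Sum.inl.injEq] at hact
      rw [hact, List.head?_map] at hy
      exact ⟨_, TStep.test hT δ γ (Option.map_injective hI hy), by simp [codeCfg, -List.map_map]⟩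
    | push x => simp [codeAct] at hact
    | pop x => simp [codeAct] at hact
  | @push A' x' a' α' h δ' γ' =>
    simp only [codeCfg, Prod.mk.injEq] at hc
    obtain ⟨rfl, hc⟩ := hc
    obtain ⟨B, γ, rfl, hB, rfl⟩ := List.map_eq_cons_iff.1 hc
    obtain ⟨A, act, α, hT, hcode⟩ := (hR _).1 h
    simp only [codeRule, Prod.mk.injEq] at hcode
    obtain ⟨hA, hact, rfl⟩ := hcode
    obtain rfl := hN (hB.trans hA)
    cases act with
    | free => simp [codeAct] at hact
    | test y => simp [codeAct] at hact
    | push x =>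
      simp only [codeAct, Act.push, Sum.inr.injEq, Sum.inl.injEq, Prod.mk.injEq] at hact
      obtain ⟨rfl, -⟩ := hact
      exact ⟨_, TStep.push hT δ γ, by simp [codeCfg, -List.map_map]⟩
    | pop x => simp [codeAct] at hact
  | @pop A' x' α' h δ' γ' =>
    simp only [codeCfg, Prod.mk.injEq] at hc
    obtain ⟨hd, hc⟩ := hc
    obtain ⟨B, γ, rfl, hB, rfl⟩ := List.map_eq_cons_iff.1 hc
    obtain ⟨x, δ, rfl, hx, rfl⟩ := List.map_eq_cons_iff.1 hd
    obtain ⟨A, act, α, hT, hcode⟩ := (hR _).1 h
    simp only [codeRule, Prod.mk.injEq] at hcode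
    obtain ⟨hA, hact, rfl⟩ := hcode
    obtain rfl := hN (hB.trans hA)
    cases act with
    | free => simp [codeAct] at hact
    | test y => simp [codeAct] at hact
    | push x => simp [codeAct] at hact
    | pop y =>
      simp only [codeAct, Act.pop, Sum.inr.injEq] at hact
      obtain rfl := hI (hx.trans hact)
      exact ⟨_, TStep.pop hT δ γ, by simp [codeCfg, -List.map_map]⟩

theorem coded_reach (hN : Function.Injective eN) (hI : Function.Injective eI)
    {init : List (NT Γ Λ)} {R : List Rule}
    (hR : ∀ r, r ∈ R ↔ ∃ A act α, TRule M init A act α ∧ r = codeRule eN eI A act α)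
    (x : List (IX Γ Λ) × List (NT Γ Λ)) :
    ReflTransGen (CStep R) (codeCfg eN eI x) ([], []) ↔
      ReflTransGen (TStep M init) x ([], []) := by
  constructor
  · intro h
    have key : ∀ z, ReflTransGen (CStep R) (codeCfg eN eI x) z →
        ∃ y, ReflTransGen (TStep M init) x y ∧ z = codeCfg eN eI y := by
      intro z hz
      induction hz with
      | refl => exact ⟨x, .refl, rfl⟩
      | tail _ h ih =>
        obtain ⟨y, hy, rfl⟩ := ih
        obtain ⟨y', hy', rfl⟩ := typed_step hN hI hR h
        exact ⟨y', hy.tail hy', rfl⟩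
    obtain ⟨⟨δ, γ⟩, hy, hz⟩ := key _ h
    simp only [codeCfg, Prod.mk.injEq] at hz
    obtain ⟨h1, h2⟩ := hz
    obtain rfl := List.map_eq_nil_iff.1 h1.symm
    obtain rfl := List.map_eq_nil_iff.1 h2.symm
    exact hy
  · intro h
    have key : ∀ y, ReflTransGen (TStep M init) x y →
        ReflTransGen (CStep R) (codeCfg eN eI x) (codeCfg eN eI y) := by
      intro y hy
      induction hy with
      | refl => exact .refl
      | tail _ h ih => exact ih.tail (coded_step hR h)
    exact key _ h

theorem BRule.length_le {A : NT Γ Λ} {act : TAct Γ Λ} {α : List (NT Γ Λ)}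
    (h : BRule M A act α) : α.length ≤ 2 := by
  cases h <;> simp

variable (M eN eI) in
theorem exists_list [Finite Γ] [Finite Λ] :
    ∃ B : List Rule, ∀ r, r ∈ B ↔ ∃ A act α, BRule M A act α ∧ r = codeRule eN eI A act α := by
  have hfin : {t : NT Γ Λ × TAct Γ Λ × List (NT Γ Λ) | BRule M t.1 t.2.1 t.2.2}.Finite := by
    refine ((Set.finite_univ (α := NT Γ Λ)).prod ((Set.finite_univ (α := TAct Γ Λ)).prod
      (List.finite_length_le (NT Γ Λ) 2))).subset ?_
    rintro ⟨A, act, α⟩ h
    exact ⟨trivial, trivial, h.length_le⟩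
  refine ⟨hfin.toFinset.toList.map (fun t => codeRule eN eI t.1 t.2.1 t.2.2), fun r => ?_⟩
  simp only [List.mem_map, Finset.mem_toList, Set.Finite.mem_toFinset, Set.mem_ofPred_eq,
    Prod.exists]
  constructor
  · rintro ⟨A, act, α, h, rfl⟩
    exact ⟨A, act, α, h, rfl⟩
  · rintro ⟨A, act, α, h, rfl⟩
    exact ⟨A, act, α, h, rfl⟩

/-- The list `b₁, b₂, b₁, b₂, …, b₁, b₂` with `n` repetitions. -/
def blk {X : Type} (b₁ b₂ : X) (n : ℕ) : List X := (List.replicate n [b₁, b₂]).flatten

variable (M) in
/-- For every machine with finitely many symbols and states there are grammars that simulate it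
on the inputs `c (b₁ b₂)ⁿ` (reversed), and which only differ in the production of the start
symbol. -/
theorem exists_grammar [Finite Γ] [Finite Λ] (b₁ b₂ c : Γ) :
    ∃ (B : List Rule) (s l₁ l₂ k z : ℕ), ∀ n : ℕ,
      (language (s, (s, Act.free, (blk l₁ l₂ n ++ [k, z]).map Sum.inl) :: B)).Nonempty ↔
        (TM0.eval M (c :: (blk b₁ b₂ n).reverse)).Dom := by
  obtain ⟨eN, hN⟩ := Countable.exists_injective_nat (NT Γ Λ)
  obtain ⟨eI, hI⟩ := Countable.exists_injective_nat (IX Γ Λ)
  obtain ⟨B, hB⟩ := exists_list M eN eI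
  refine ⟨B, eN .start, eN (.load b₁), eN (.load b₂), eN (.ctl default c), eN .bot, fun n => ?_⟩
  have hform : (initForm c (blk b₁ b₂ n).reverse : List (NT Γ Λ)).map eN =
      blk (eN (.load b₁)) (eN (.load b₂)) n ++ [eN (.ctl default c), eN .bot] := by
    simp only [initForm, List.reverse_reverse, List.map_append, List.map_cons,
      List.map_nil, blk, List.map_flatten, List.map_replicate]
  have hR : ∀ r, r ∈ ((eN NT.start, Act.free,
        (blk (eN (.load b₁)) (eN (.load b₂)) n ++ [eN (.ctl default c), eN .bot]).map Sum.inl) ::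
          B : List Rule) ↔
      ∃ A act α, TRule M (initForm c (blk b₁ b₂ n).reverse) A act α ∧
        r = codeRule eN eI A act α := by
    intro r
    rw [← hform, List.mem_cons, hB]
    constructor
    · rintro (rfl | ⟨A, act, α, h, rfl⟩)
      · exact ⟨_, _, _, Or.inl ⟨rfl, rfl, rfl⟩, rfl⟩
      · exact ⟨A, act, α, Or.inr h, rfl⟩
    · rintro ⟨A, act, α, ⟨rfl, rfl, rfl⟩ | h, rfl⟩
      · exact Or.inl rfl
      · exact Or.inr ⟨A, act, α, h, rfl⟩
  rw [language_nonempty_iff, ← simulation, ← coded_reach hN hI hR]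
  rfl

end Coding

/-! ### A universal machine -/

section Universal

open ToPartrec (Code)

/-- Exchange the first two entries of the list. -/
def swapCode : Code :=
  Code.cons Code.tail (Code.cons Code.id (Code.comp Code.tail Code.tail))

theorem swapCode_eval (a b : ℕ) (l : List ℕ) : swapCode.eval (a :: b :: l) = pure (b :: a :: l) := by
  simp [swapCode]

/-- One iteration of the counting loop. -/
def bodyCode : Code :=
  Code.comp (Code.case Code.zero'
    (Code.cons (Code.comp Code.succ Code.zero)
      (Code.cons (Code.comp Code.succ Code.tail) (Code.comp Code.tail Code.tail)))) swapCode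

theorem bodyCode_zero (a : ℕ) (l : List ℕ) :
    bodyCode.eval (a :: 0 :: l) = pure (0 :: a :: l) := by
  simp [bodyCode, swapCode_eval]

theorem bodyCode_succ (a b : ℕ) (l : List ℕ) :
    bodyCode.eval (a :: (b + 1) :: l) = pure (1 :: (a + 1) :: l) := by
  simp [bodyCode, swapCode_eval]

/-- Count the leading nonzero entries. -/
def countCode : Code := Code.comp (Code.fix bodyCode) Code.zero'

/-- The partial function iterated by the counting loop. -/
def loopFun : List ℕ →. List ℕ ⊕ List ℕ := fun v =>
  (bodyCode.eval v).map fun v => if v.headI = 0 then Sum.inl v.tail else Sum.inr v.tail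

theorem fix_bodyCode : (Code.fix bodyCode).eval = PFun.fix loopFun := Code.fix_eval bodyCode

theorem loopFun_zero (a : ℕ) (l : List ℕ) :
    loopFun (a :: 0 :: l) = Part.some (Sum.inl (a :: l)) := by
  unfold loopFun
  rw [bodyCode_zero]
  simp

theorem loopFun_one (a : ℕ) (l : List ℕ) :
    loopFun (a :: 1 :: l) = Part.some (Sum.inr ((a + 1) :: l)) := by
  unfold loopFun
  have := bodyCode_succ a 0 l
  rw [zero_add] at this
  rw [this]
  simp

theorem loop_eval (n a : ℕ) :
    PFun.fix loopFun (a :: (List.replicate n 1 ++ [0])) = Part.some [a + n] := by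
  induction n generalizing a with
  | zero =>
    refine Part.eq_some_iff.2 (PFun.fix_stop ?_)
    rw [List.replicate_zero, List.nil_append, loopFun_zero]
    simp
  | succ n ih =>
    rw [List.replicate_succ, List.cons_append,
      PFun.fix_fwd_eq (a' := (a + 1) :: (List.replicate n 1 ++ [0])), ih]
    · congr 2
      omega
    · rw [loopFun_one]
      simp

theorem comp_eval_apply (f g : Code) (v : List ℕ) :
    (Code.comp f g).eval v = (g.eval v).bind (fun w => f.eval w) := by
  rw [Code.comp_eval]
  rfl

theorem countCode_eval (n : ℕ) :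
    countCode.eval (List.replicate n 1 ++ [0]) = Part.some [n] := by
  have h0 : Code.zero'.eval (List.replicate n 1 ++ [0]) =
      Part.some (0 :: (List.replicate n 1 ++ [0])) := by
    rw [Code.zero'_eval]
    rfl
  rw [countCode, comp_eval_apply, h0, Part.bind_some, fix_bodyCode, loop_eval, zero_add]

open PartrecToTM2 in
theorem trList_input (n : ℕ) : trList (List.replicate n 1 ++ [0]) =
    blk Γ'.bit1 Γ'.cons n ++ [Γ'.cons] := by
  induction n with
  | zero => simp [blk, trList]
  | succ n ih =>
    rw [List.replicate_succ, List.cons_append]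
    simp only [trList, ih, blk, List.replicate_succ, List.flatten_cons]
    rfl


/-- A machine with a finite supporting set of states can be replaced by one with finitely many
states. -/
theorem exists_restrict {Γ Λ : Type} [Inhabited Γ] [Inhabited Λ] (M : TM0.Machine Γ Λ)
    (S : Finset Λ) (ss : TM0.Supports M (S : Set Λ)) :
    ∃ (Λ₁ : Type) (_ : Inhabited Λ₁) (_ : Finite Λ₁) (M₁ : TM0.Machine Γ Λ₁),
      ∀ l : List Γ, (TM0.eval M₁ l).Dom ↔ (TM0.eval M l).Dom := by
  classical
  let inst : Inhabited {q // q ∈ S} := ⟨⟨default, ss.1⟩⟩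
  let f : PointedMap Γ Γ := ⟨id, rfl⟩
  let g₁ : PointedMap Λ {q // q ∈ S} :=
    ⟨fun q => if h : q ∈ S then ⟨q, h⟩ else default, by
      have h : (default : Λ) ∈ S := ss.1
      simp only [h, dif_pos]
      rfl⟩
  have hg : ∀ q ∈ (S : Set Λ), ((g₁ q : {q // q ∈ S}) : Λ) = q := by
    intro q hq
    have hq' : q ∈ S := hq
    change ((if h : q ∈ S then (⟨q, h⟩ : {q // q ∈ S}) else default : {q // q ∈ S}) : Λ) = q
    rw [dif_pos hq']
  refine ⟨{q // q ∈ S}, inst, inferInstance, M.map f f g₁ (fun q => (q : Λ)), fun l => ?_⟩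
  have h := TM0.Machine.map_respects M f f g₁ (fun q : {q // q ∈ S} => (q : Λ)) ss
    (fun x => rfl) hg
  have hinit : TM0.Cfg.map f g₁ (TM0.init l) = TM0.init l := by
    rw [TM0.map_init f g₁ l]
    congr 1
    exact List.map_id l
  have h2 := StateTransition.tr_eval_dom h (a₁ := TM0.init l) (a₂ := TM0.init l) ⟨ss.1, hinit⟩
  exact h2

theorem blk_map {X Y : Type} (f : X → Y) (a b : X) (n : ℕ) :
    (blk a b n).map f = blk (f a) (f b) n := by
  simp [blk, List.map_flatten, List.map_replicate]

open PartrecToTM2 in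
/-- A tape cell in which only the main stack has an entry. -/
def cellOf (b : Bool) (x : PartrecToTM2.Γ') : TM2to1.Γ' K' (fun _ => PartrecToTM2.Γ') :=
  (b, Function.update (fun _ => none) K'.main (some x))

open PartrecToTM2 in
theorem trInit_input (n : ℕ) :
    TM2to1.trInit K'.main (trList (List.replicate n 1 ++ [0])) =
      cellOf true PartrecToTM2.Γ'.cons ::
        (blk (cellOf false PartrecToTM2.Γ'.bit1) (cellOf false PartrecToTM2.Γ'.cons) n).reverse := by
  have h1 : (trList (List.replicate n 1 ++ [0])).reverse =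
      PartrecToTM2.Γ'.cons :: (blk PartrecToTM2.Γ'.bit1 PartrecToTM2.Γ'.cons n).reverse := by
    rw [trList_input, List.reverse_append]
    rfl
  have h2 : (blk (cellOf false PartrecToTM2.Γ'.bit1) (cellOf false PartrecToTM2.Γ'.cons) n).reverse =
      ((blk PartrecToTM2.Γ'.bit1 PartrecToTM2.Γ'.cons n).reverse).map (cellOf false) := by
    rw [← blk_map, List.map_reverse]
  rw [h2]
  unfold TM2to1.trInit
  rw [h1]
  rfl

open PartrecToTM2 in
theorem finite_K' : Finite K' := by
  let g : Fin 4 → K'
    | 0 => .main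
    | 1 => .rev
    | 2 => .aux
    | 3 => .stack
  refine Finite.of_surjective g ?_
  rintro (_ | _ | _ | _)
  · exact ⟨0, rfl⟩
  · exact ⟨1, rfl⟩
  · exact ⟨2, rfl⟩
  · exact ⟨3, rfl⟩

open PartrecToTM2 in
theorem exists_machine {f : ℕ →. ℕ} (hf : Partrec f) :
    ∃ (Γ Λ : Type) (_ : Inhabited Γ) (_ : Finite Γ) (_ : Inhabited Λ) (_ : Finite Λ)
      (M : TM0.Machine Γ Λ) (b₁ b₂ c : Γ),
      ∀ n, (TM0.eval M (c :: (blk b₁ b₂ n).reverse)).Dom ↔ (f n).Dom := by
  classical
  obtain ⟨u, hu⟩ := Code.exists_code (Nat.Partrec'.part_iff₁.2 hf)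
  let c₀ : Code := Code.comp u countCode
  let instΛ : Inhabited PartrecToTM2.Λ' := ⟨trNormal c₀ Cont'.halt⟩
  have hK := finite_K'
  let M₁ := TM2to1.tr (PartrecToTM2.tr)
  let M₀ := TM1to0.tr M₁
  have ss : TM0.Supports M₀ _ :=
    TM1to0.tr_supports _ (TM2to1.tr_supports _ (PartrecToTM2.tr_supports c₀ Cont'.halt))
  have : Finite (TM2to1.Γ' K' (fun _ => PartrecToTM2.Γ')) := by
    change Finite (Bool × (∀ _ : K', Option PartrecToTM2.Γ'))
    infer_instance
  obtain ⟨Λ₁, i₁, i₂, M, hM⟩ := exists_restrict M₀ _ ss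
  refine ⟨TM2to1.Γ' K' (fun _ => PartrecToTM2.Γ'), Λ₁, inferInstance, inferInstance, i₁, i₂, M,
    cellOf false PartrecToTM2.Γ'.bit1, cellOf false PartrecToTM2.Γ'.cons,
    cellOf true PartrecToTM2.Γ'.cons, fun n => ?_⟩
  rw [hM, ← trInit_input]
  have h1 : TM0.eval M₀ (TM2to1.trInit K'.main (trList (List.replicate n 1 ++ [0]))) =
      TM1.eval M₁ (TM2to1.trInit K'.main (trList (List.replicate n 1 ++ [0]))) :=
    TM1to0.tr_eval M₁ _
  rw [h1]
  refine (TM2to1.tr_eval_dom PartrecToTM2.tr K'.main _).trans ?_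
  have h2 : (TM2.init K'.main (trList (List.replicate n 1 ++ [0])) :
      TM2.Cfg (fun _ : K' => PartrecToTM2.Γ') PartrecToTM2.Λ' (Option PartrecToTM2.Γ')) =
      PartrecToTM2.init c₀ (List.replicate n 1 ++ [0]) := by
    unfold TM2.init PartrecToTM2.init
    congr 1
    funext k
    cases k <;> rfl
  have h3 : (TM2.eval PartrecToTM2.tr K'.main (trList (List.replicate n 1 ++ [0]))).Dom ↔
      (StateTransition.eval (TM2.step PartrecToTM2.tr)
        (PartrecToTM2.init c₀ (List.replicate n 1 ++ [0]))).Dom := by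
    rw [← h2]
    rfl
  refine h3.trans ?_
  rw [PartrecToTM2.tr_eval]
  have h4 : (Code.eval c₀ (List.replicate n 1 ++ [0])).Dom ↔ (f n).Dom := by
    rw [comp_eval_apply, countCode_eval, Part.bind_some]
    have := hu ⟨[n], rfl⟩
    change u.eval [n] = pure <$> f n at this
    rw [this]
    rfl
  exact h4


end Universal

/-! ### The reduction -/

/-- The grammar that simulates the universal machine on input `n`. -/
def gram (B : List Rule) (s l₁ l₂ k z n : ℕ) : GIG :=
  (s, (s, Act.free, (blk l₁ l₂ n ++ [k, z]).map Sum.inl) :: B)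

theorem computable_gram (B : List Rule) (s l₁ l₂ k z : ℕ) : Computable (gram B s l₁ l₂ k z) := by
  have h1 : Primrec (fun n : ℕ => ((blk l₁ l₂ n ++ [k, z]).map Sum.inl : List Sym)) := by
    have h2 : Primrec₂ (fun (_ : ℕ) (L : List Sym) => (Sum.inl l₁ :: Sum.inl l₂ :: L : List Sym)) :=
      (Primrec.list_cons.comp (Primrec.const _)
        (Primrec.list_cons.comp (Primrec.const _) Primrec.snd)).to₂
    refine (Primrec.nat_rec₁ ([Sum.inl k, Sum.inl z] : List Sym) h2).of_eq fun n => ?_
    induction n with
    | zero => simp [blk]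
    | succ n ih =>
      change (Sum.inl l₁ :: Sum.inl l₂ :: _ : List Sym) = _
      rw [ih]
      simp [blk, List.replicate_succ]
  have h3 : Primrec (gram B s l₁ l₂ k z) :=
    Primrec.pair (Primrec.const s)
      (Primrec.list_cons.comp
        (Primrec.pair (Primrec.const s) (Primrec.pair (Primrec.const _) h1)) (Primrec.const B))
  exact h3.to_comp

/-- The emptiness problem for global index grammars is undecidable. -/
theorem result : ¬ ComputablePred (fun G : GIG => language G = ∅) := by
  intro h
  have hU : Partrec (fun n : ℕ => (Denumerable.ofNat Nat.Partrec.Code n).eval 0) :=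
    Nat.Partrec.Code.eval_part.comp (Computable.ofNat _) (Computable.const 0)
  obtain ⟨Γ, Λ, i₁, i₂, i₃, i₄, M, b₁, b₂, c, hM⟩ := exists_machine hU
  obtain ⟨B, s, l₁, l₂, k, z, hB⟩ := exists_grammar M b₁ b₂ c
  obtain ⟨f, hf, hp⟩ := ComputablePred.computable_iff.1 h
  refine ComputablePred.halting_problem 0 (ComputablePred.computable_iff.2
    ⟨fun c => !f (gram B s l₁ l₂ k z (Encodable.encode c)), ?_, ?_⟩)
  · exact Primrec.not.to_comp.comp
      (hf.comp ((computable_gram B s l₁ l₂ k z).comp Computable.encode))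
  · funext c
    have h1 := (hB (Encodable.encode c)).trans (hM (Encodable.encode c))
    rw [Denumerable.ofNat_encode] at h1
    have h2 : (language (gram B s l₁ l₂ k z (Encodable.encode c)) = ∅) ↔
        f (gram B s l₁ l₂ k z (Encodable.encode c)) = true := by
      rw [← congrFun hp (gram B s l₁ l₂ k z (Encodable.encode c))]
    apply propext
    rw [← h1]
    change (language (gram B s l₁ l₂ k z (Encodable.encode c))).Nonempty ↔ _
    rw [Set.nonempty_iff_ne_empty, Ne, h2]
    simp

end Pool.Agent.Results.MP_c0e261_lc.EmptinessUndecidable
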